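import Pool.Agent.Q51.SZ.All
import Pool.Agent.U899.LG3

/-!
# Sections over all number fields of degree prime to `q` for 100% of the everywhere locally soluble twists

Let `a X ^ n + b`, `n` odd, `a, b ∈ ℤ`, be irreducible over `ℚ`, let `m > 1` divide `n`, and let
`C_D : D y ^ m = a x ^ n + b w ^ n` be the twists of the (generalised) Fermat curve `y ^ m = a x ^ n + b w ^ n`, smooth
projective curves in the weighted projective plane of weights `(1, 1, n/m)`, of genus `(m - 1)(n - 2)/2`; so the genus
is at least `2` unless `n = m = 3`.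

**Theorem.** For 100 percent of the everywhere locally soluble curves `C_D` with squarefree `D` (all but
`C (log X)^(-δ) E(X)`, if `E(X)` is the number of them with `|D| ≤ X`) the following is true for all prime factors `q`
of `m` and ALL number fields `K` of a degree prime to `q` at the same time:

* `C_D(K)` is empty;
* the fundamental groups of `C_D`, of its open subcurves and of all smooth curves over `K` which dominate it have no
  sections over `G_K`;
* the geometrically pro-`q` fundamental group of the curve `D y ^ q = a x ^ q + b` has no section over `G_K`.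

**Local-global principle for the existence of the curves** (new here, `Pool/Agent/U899/LG*.lean`).  There is a
squarefree `D` such that `C_D` is everywhere locally soluble if and only if for every prime number `p` there is an
integer `D`, not divisible by `p ^ 2`, such that `C_D` has a point over `ℚ_p`.  This is the case if no square of a
prime number divides both `a` and `b`, for instance if `a` and `b` are coprime.  Under this condition
`E(X) ≥ c X / log X * exp (∑ 1/l)` for large `X`, the sum over the primes `l ≤ X` modulo which `a X ^ n + b` has a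
zero; so the theorem is about infinitely many curves.  Proof: `D = ± P l l'`, where `P` and the residue class of
`± l l'` are given by the local conditions at the bad primes, and `l, l'` are primes such that `l - 1` and `l' - 1`
are prime to `n` (Dirichlet's theorem; here `n` odd is used), so that `a X ^ n + b` has zeros modulo `l` and `l'`;
at the other primes Weil's bound gives a point.

So the section conjecture holds for these curves over infinitely many number fields at once, although the curves have
points over all completions of all number fields.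

The fundamental group is described through valuations.  Let `U` be a smooth geometrically connected curve over
`K` with function field `F`, let `Ω` be an algebraic closure of `F`, and let `F_U` be the maximal extension of `F`
inside `Ω` which is unramified over the closed points of `U`, that is, over their local rings, which are
valuation rings of `F`.  Then `π₁(U) = Gal(F_U/F)`, and the map `π₁(U) → G_K` is the restriction of automorphisms to
the algebraic closure of `K` in `Ω`.

Proof (parts SZ and ZC of helper51's project).  `C_D` maps to the curve `D y ^ q = f(x)`, `f = a X ^ q + b`, with the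
branch points `(e, 0)`, `f(e) = 0`.  A section over `G_K` gives Kummer classes `κ(e, e')` of the ratios
`(x - e) / (x - e')` over the fields `K(e, e')`; at a prime `v` of `K` above `l ∤ B` they are those of a divisor of
branch points of degree prime to `q` (a Lefschetz type argument for the action of the inertia group on the special
fibre, or the theory of pro-`q` sections at the primes dividing `D`).  As the degree of `K` is prime to `q`, the
norms of these classes to `ℚ` give a system of the same kind over `ℚ`, and the number of the `D` for which there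
is such a system is bounded by the large sieve, as for zero-cycles.

(helper51, with helper14, helper24, helper26, helper38, helper124, helper150, helper157, helper162, helper166, helper182,
helper198, helper277, helper285; assembled and completed by helper899.)
-/

set_option autoImplicit false

open Polynomial

namespace Pool.Agent.Results.MP_2f3286_ag.FermatTwistsLocalGlobal

section definitions

variable (ℓ : ℕ) (k F Ω : Type) [Field k] [Field F] [Field Ω] [Algebra k F] [Algebra F Ω]
  [Algebra k Ω]

/-- The inertia group of the valuation ring `W` of `Ω`, as a subgroup of `Gal(Ω/F)`: the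
automorphisms of `Ω` over `F` that map `W` onto itself and act as the identity on its residue
field. -/
noncomputable def inertia (W : ValuationSubring Ω) : Subgroup (Ω ≃ₐ[F] Ω) :=
  (W.inertiaSubgroup F).map (W.decompositionSubgroup F).subtype

/-- `F_U`, for a set `U` of valuation rings of `F`: the elements of `Ω` fixed by the inertia groups
of all valuation rings `W` of `Ω` with `W ∩ F ∈ U`.  If `Ω` is an algebraic closure of a field `F`
of characteristic zero, this is the maximal extension of `F` in `Ω` unramified over `U`. -/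
noncomputable def unramified (U : Set (ValuationSubring F)) : IntermediateField F Ω :=
  ⨅ W : {W : ValuationSubring Ω // W.comap (algebraMap F Ω) ∈ U},
    IntermediateField.fixedField (inertia F Ω W.1)

/-- `k̄ F`, the compositum of `F` and of the algebraic closure of `k` in `Ω`. -/
noncomputable def geomField : IntermediateField F Ω :=
  IntermediateField.adjoin F (algebraicClosure k Ω : Set Ω)

/-- The algebraic extension `L` of `K` in `Ω` is unramified at all valuation rings of `Ω` that
contain `k`: every nonzero element of `L` has the same valuation as an element of `K`.  (If `K` is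
a function field of one variable over the algebraic closure of `k` and `k` has characteristic zero,
then this says that `L/K` is unramified over all points of the smooth projective curve.) -/
def Unramified {k K Ω : Type} [Field k] [Field K] [Field Ω] [Algebra k Ω] [Algebra K Ω]
    (L : IntermediateField K Ω) : Prop :=
  ∀ W : ValuationSubring Ω, (∀ c : k, algebraMap k Ω c ∈ W) → ∀ z ∈ L, z ≠ 0 →
    ∃ t : K, t ≠ 0 ∧ z / algebraMap K Ω t ∈ W ∧ (z / algebraMap K Ω t)⁻¹ ∈ W

/-- `L/K` is a finite Galois extension whose degree is a power of `ℓ`. -/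
def FiniteProEll (ℓ : ℕ) {K Ω : Type} [Field K] [Field Ω] [Algebra K Ω]
    (L : IntermediateField K Ω) : Prop :=
  FiniteDimensional K L ∧ IsGalois K L ∧ ∃ m : ℕ, Module.finrank K L = ℓ ^ m

/-- The maximal unramified pro-`ℓ` extension of `K` in `Ω`: the compositum of the finite Galois
extensions of `K` whose degree is a power of `ℓ` and which are unramified. -/
noncomputable def maxProEll (ℓ : ℕ) (k K Ω : Type) [Field k] [Field K] [Field Ω] [Algebra k Ω]
    [Algebra K Ω] : IntermediateField K Ω :=
  ⨆ L : {L : IntermediateField K Ω // FiniteProEll ℓ L ∧ Unramified (k := k) L}, L.1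

/-- `M`, the maximal unramified pro-`ℓ` extension of `k̄ F` in `Ω`, as an extension of `F`. -/
noncomputable def proEllField : IntermediateField F Ω :=
  (maxProEll ℓ k (geomField k F Ω) Ω).restrictScalars F

/-- The map `τ : M → M` acts as `σ : K → K` on the elements that the fields `K` and `M` have in
common when they are regarded as subfields of `Ω` through `i` and `j`. -/
def ActsAs {K M Ω : Type} [Field K] [Field M] [Field Ω] (i : K →+* Ω) (j : M →+* Ω) (σ : K → K)
    (τ : M → M) : Prop :=
  ∀ c z, j z = i c → j (τ z) = i (σ c)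

/-- Let `k ⊆ K ⊆ Ω` and `F ⊆ N ⊆ Ω` be fields.  A splitting of `Gal(N/F) → Gal(K/k)`: a continuous
homomorphism `s` from `Gal(K/k)` to `Gal(N/F)` such that `s(σ)` acts as `σ` on the elements of
`K ∩ N`. -/
structure Splitting (K N : Type) [Field K] [Field N] [Algebra k K] [Algebra F N] [Algebra K Ω]
    [Algebra N Ω] where
  /-- the homomorphism `Gal(K/k) → Gal(N/F)` -/
  toHom : (K ≃ₐ[k] K) →* (N ≃ₐ[F] N)
  cont : Continuous toHom
  compat : ∀ σ : K ≃ₐ[k] K, ActsAs (algebraMap K Ω) (algebraMap N Ω) σ (toHom σ)

/-- There are no sections of `Gal(N/F) → G_k`, where `G_k = Gal(k̄/k)` and `k̄` is the algebraic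
closure of `k` in `Ω`.  For `N = F_U` these are the sections of `π₁(U) → G_k`. -/
def NoSplitting (N : IntermediateField F Ω) : Prop :=
  IsEmpty (Splitting k F Ω (algebraicClosure k Ω) N)

end definitions

section curves

/-- The smooth projective curve `C_D : D y ^ m = a x ^ n + b w ^ n` in the weighted projective plane of weights
`(1, 1, n/m)` has a point over `F`. -/
def HasPoint (a b : ℤ) (n m : ℕ) (D : ℤ) (F : Type) [Field F] : Prop :=
  ∃ x w y : F, (x ≠ 0 ∨ w ≠ 0) ∧ (D : F) * y ^ m = a * x ^ n + b * w ^ n

/-- `C_D` is everywhere locally soluble: it has points over `ℝ` and all `ℚ_p` (so over all completions of all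
number fields). -/
def Soluble (a b : ℤ) (n m : ℕ) (D : ℤ) : Prop :=
  HasPoint a b n m D ℝ ∧ ∀ (p : ℕ) [Fact p.Prime], HasPoint a b n m D ℚ_[p]

/-- Let `F` be any field over `K` that contains a point `(x, y)` of the affine curve `D y ^ m = a x ^ n + b`, for
instance the function field over `K` of `C_D`, and let `Ω` be an algebraic closure of `F`.  Then for every set `U` of
valuation rings of `F` over `K` there is no section of `π₁(U) → G_K`.  If `F` is the function field of the curve,
such `U` are given by `C_D` and by all its open subcurves. -/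
def NoSection (a b : ℤ) (n m : ℕ) (D : ℤ) (K : Type) [Field K] : Prop :=
  ∀ (F Ω : Type) [Field F] [Field Ω] [Algebra K F] [Algebra F Ω] [Algebra K Ω]
    [IsScalarTower K F Ω] [IsAlgClosure F Ω] (x y : F) (U : Set (ValuationSubring F)),
    (D : F) * y ^ m = a * x ^ n + b → (∀ O ∈ U, ∀ c : K, algebraMap K F c ∈ O) →
      NoSplitting K F Ω (unramified F Ω U)

/-- Let `F = K(x, y)` be the function field over `K` of the curve `D y ^ q = a x ^ q + b`, let `Ω` be an algebraic
closure of `F`, and let `M` be the maximal unramified pro-`q` extension of `K̄ F`.  For all extensions `N ⊇ M` of `F` in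
`Ω`, in particular for `N = M`, there is no section of `Gal(N/F) → G_K`. -/
def NoProEllSection (a b : ℤ) (q : ℕ) (D : ℤ) (K : Type) [Field K] : Prop :=
  ∀ (F Ω : Type) [Field F] [Field Ω] [Algebra K F] [Algebra F Ω] [Algebra K Ω]
    [IsScalarTower K F Ω] [IsAlgClosure F Ω] (x y : F), Transcendental K x →
    (D : F) * y ^ q = a * x ^ q + b →
    IntermediateField.adjoin K {x, y} = (⊤ : IntermediateField K F) →
    ∀ N : IntermediateField F Ω, proEllField q K F Ω ≤ N → NoSplitting K F Ω N

/-- There is nothing over `K`: no point of `C_D`, no section of the fundamental group of an open subcurve or of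
a curve which dominates `C_D`, and no section of the geometrically pro-`q` fundamental group of
`D y ^ q = a x ^ q + b`. -/
def NothingOver (a b : ℤ) (n m : ℕ) (D : ℤ) (q : ℕ) (K : Type) [Field K] : Prop :=
  ¬ HasPoint a b n m D K ∧ NoSection a b n m D K ∧ NoProEllSection a b q D K

/-- The integers `D` which do not have the following property: for all prime factors `q` of `m` and all number
fields `K` of a degree prime to `q` there is nothing over `K`. -/
def Exceptional (a b : ℤ) (n m : ℕ) (D : ℤ) : Prop :=
  ¬ ∀ q : ℕ, q.Prime → q ∣ m → ∀ (K : Type) [Field K] [NumberField K],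
    ¬ q ∣ Module.finrank ℚ K → NothingOver a b n m D q K

/-- The number of the squarefree `D` with `|D| ≤ X` and the property `P`. -/
noncomputable def count (P : ℤ → Prop) (X : ℝ) : ℝ :=
  {D : ℤ | Squarefree D ∧ |(D : ℝ)| ≤ X ∧ P D}.ncard

/-- The sum of `1 / l` over the primes `l ≤ X` modulo which `a X ^ n + b` has a zero. -/
noncomputable def sumRoots (a b : ℤ) (n : ℕ) (X : ℝ) : ℝ :=
  ∑' l : {l : ℕ | l.Prime ∧ (l : ℝ) ≤ X ∧ ∃ r : ℤ, (l : ℤ) ∣ a * r ^ n + b}, (1 : ℝ) / (l : ℕ)

/-- For every prime number `p` there is an integer `D` which is not divisible by `p ^ 2` such that `C_D` has a point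
over `ℚ_p`. -/
def LocallyAttainable (a b : ℤ) (n m : ℕ) : Prop :=
  ∀ (p : ℕ) [Fact p.Prime], ∃ D : ℤ, ¬ (p : ℤ) ^ 2 ∣ D ∧ HasPoint a b n m D ℚ_[p]

end curves

lemma iSup_congr_prop {α : Type} [CompleteLattice α] {P Q : α → Prop} (h : ∀ L, P L ↔ Q L) :
    (⨆ L : {L // P L}, L.1) = ⨆ L : {L // Q L}, L.1 := by
  have h1 : P = Q := funext fun L => propext (h L)
  subst h1
  rfl

lemma proEll_eq (ℓ : ℕ) (k F Ω : Type) [Field k] [Field F] [Field Ω] [Algebra k F] [Algebra F Ω]
    [Algebra k Ω] : proEllField ℓ k F Ω = Pool.Agent.Y157.PS.geomPro ℓ k F Ω := by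
  unfold proEllField Pool.Agent.Y157.PS.geomPro maxProEll Pool.Agent.Y157.PS.maxPro
  congr 1
  refine iSup_congr_prop fun L => ?_
  constructor
  · rintro ⟨⟨h1, h2, h3⟩, h4⟩
    refine ⟨⟨h1, h2, h3⟩, fun W hW z hz hz0 => ?_⟩
    obtain ⟨t, ht, h5, h6⟩ := h4 W hW z hz hz0
    exact ⟨t, ht, div_ne_zero hz0 ((_root_.map_ne_zero _).2 ht), h5, h6⟩
  · rintro ⟨⟨h1, h2, h3⟩, h4⟩
    refine ⟨⟨h1, h2, h3⟩, fun W hW z hz hz0 => ?_⟩
    obtain ⟨t, ht, -, h5, h6⟩ := h4 W hW z hz hz0
    exact ⟨t, ht, h5, h6⟩

lemma point_iff {a b : ℤ} {n m : ℕ} {D : ℤ} {F : Type} [Field F] :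
    HasPoint a b n m D F ↔ Nonempty (Pool.Agent.Q51.ZC.CPoint a b n m D F) :=
  ⟨fun ⟨x, w, y, h1, h2⟩ => ⟨⟨x, w, y, h1, h2⟩⟩, fun ⟨P⟩ => ⟨P.x, P.w, P.y, P.ne, P.eq⟩⟩

lemma soluble_iff {a b : ℤ} {n m : ℕ} {D : ℤ} :
    Soluble a b n m D ↔ Pool.Agent.Q51.ZC.Soluble a b n m D := by
  constructor
  · rintro ⟨h1, h2⟩
    exact ⟨point_iff.mp h1, fun p => point_iff.mp (h2 (p : ℕ))⟩
  · rintro ⟨h1, h2⟩
    exact ⟨point_iff.mpr h1, fun p hp => point_iff.mpr (h2 ⟨p, hp.out⟩)⟩

lemma noSection {a b : ℤ} {n m : ℕ} {D : ℤ} {K : Type} [Field K]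
    (h2 : ¬ Pool.Agent.Q51.SZ.HasSec a b n m D K) : NoSection a b n m D K := by
  intro F Ω _ _ _ _ _ _ _ x y U hxy hU
  have hcl : IsAlgClosed Ω := IsAlgClosure.isAlgClosed F
  have halg : Algebra.IsAlgebraic F Ω := IsAlgClosure.isAlgebraic
  exact ⟨fun s => h2 ⟨F, Ω, inferInstance, inferInstance, inferInstance, inferInstance,
    inferInstance, inferInstance, hcl, halg, U, x, y, hU, hxy, ⟨⟨s.toHom, s.cont, s.compat⟩⟩⟩⟩

lemma noPro {a b : ℤ} {q : ℕ} {D : ℤ} {K : Type} [Field K]
    (h3 : ¬ Pool.Agent.Q51.SZ.HasPro a b q D K) : NoProEllSection a b q D K := by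
  intro F Ω _ _ _ _ _ _ _ x y hx hxy hF N hN
  have hcl : IsAlgClosed Ω := IsAlgClosure.isAlgClosed F
  have halg : Algebra.IsAlgebraic F Ω := IsAlgClosure.isAlgebraic
  rw [proEll_eq] at hN
  exact ⟨fun s => h3 ⟨F, Ω, inferInstance, inferInstance, inferInstance, inferInstance,
    inferInstance, inferInstance, hcl, halg, x, y, N, s.toHom, hx, hxy, hF, hN, s.cont,
    s.compat⟩⟩

lemma count_soluble (a b : ℤ) (n m : ℕ) (X : ℝ) :
    count (Soluble a b n m) X = Pool.Agent.Q51.ZC.numLocSoluble a b n m X := by
  unfold count Pool.Agent.Q51.ZC.numLocSoluble Pool.Agent.Q51.SE.count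
  congr 2
  ext D
  simp only [Set.mem_ofPred_eq, soluble_iff]

lemma local_global {a b : ℤ} {n m : ℕ} (hn : Odd n) (hm : 1 < m) (hmn : m ∣ n)
    (hirr : Irreducible (C (a : ℚ) * X ^ n + C (b : ℚ))) :
    (∃ D : ℤ, Squarefree D ∧ Soluble a b n m D) ↔ LocallyAttainable a b n m := by
  refine Iff.trans ?_ ((Pool.Agent.U899.LG.lg_iff hn hm hmn hirr).trans ?_)
  · exact exists_congr fun D => and_congr_right fun _ => soluble_iff
  · exact forall_congr' fun p => forall_congr' fun hp => exists_congr fun D =>
      and_congr_right fun _ => point_iff.symm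

lemma attainable {a b : ℤ} {n m : ℕ} (hn : Odd n) (hm : 1 < m)
    (h : ∀ p : ℕ, p.Prime → ¬ ((p : ℤ) ^ 2 ∣ a ∧ (p : ℤ) ^ 2 ∣ b)) : LocallyAttainable a b n m := by
  intro p hp
  obtain ⟨D, h1, h2⟩ := Pool.Agent.U899.LG.att (m := m) hn hm h p
  exact ⟨D, h1, point_iff.2 h2⟩

/-- Let `a X ^ n + b` be irreducible over `ℚ`, `n` odd, and let `m > 1` divide `n`.  For 100 percent of the everywhere
locally soluble curves `C_D : D y ^ m = a x ^ n + b w ^ n` with squarefree `D` (all but `C (log X)^(-δ) E(X)` of the
`E(X)` curves with `|D| ≤ X`) there is, for all prime factors `q` of `m` and all number fields `K` of a degree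
prime to `q`, no `K`-rational point, no section over `G_K` of the fundamental groups of the open subcurves of
`C_D` and of all smooth curves over `K` which dominate it, and no section of the geometrically pro-`q` fundamental
group of the curve `D y ^ q = a x ^ q + b`.  `E` is not zero if and only if for
every prime `p` some `C_D` with `p ^ 2 ∤ D` has a point over `ℚ_p`; this is so if no square of a prime divides `a` and
`b`; then `E(X) ≥ c X / log X * exp (∑ 1/l)` for large `X`, the sum over the primes `l ≤ X` modulo which
`a X ^ n + b` has a zero. -/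
theorem result (a b : ℤ) (n m : ℕ) (hn : Odd n) (hm : 1 < m) (hmn : m ∣ n)
    (hirr : Irreducible (C (a : ℚ) * X ^ n + C (b : ℚ))) :
    (∃ δ C : ℝ, 0 < δ ∧ ∀ X : ℝ, 3 ≤ X →
      count (fun D => Soluble a b n m D ∧ Exceptional a b n m D) X ≤
        C * Real.log X ^ (-δ) * count (Soluble a b n m) X) ∧
    ((∃ D : ℤ, Squarefree D ∧ Soluble a b n m D) ↔ LocallyAttainable a b n m) ∧
    ((∀ p : ℕ, p.Prime → ¬ ((p : ℤ) ^ 2 ∣ a ∧ (p : ℤ) ^ 2 ∣ b)) → LocallyAttainable a b n m) ∧
    (LocallyAttainable a b n m → ∃ c X₀ : ℝ, 0 < c ∧ ∀ X : ℝ, X₀ ≤ X →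
      c * X / Real.log X * Real.exp (sumRoots a b n X) ≤ count (Soluble a b n m) X) := by
  refine ⟨?_, local_global hn hm hmn hirr, attainable hn hm, ?_⟩
  · obtain ⟨δ, C, hδ, h1⟩ := Pool.Agent.Q51.SZ.main hn hm hmn hirr
    refine ⟨δ, C, hδ, fun X hX => le_trans ?_ ((h1 X hX).trans (le_of_eq ?_))⟩
    · unfold count Pool.Agent.Q51.SZ.numAny
      refine Nat.cast_le.mpr ?_
      refine Pool.Agent.Q51.ZC.count_mono (P := fun D => Soluble a b n m D ∧ Exceptional a b n m D)
        (fun D _ hD => ⟨soluble_iff.mp hD.1, ?_⟩) X
      by_contra hcon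
      apply hD.2
      intro q hq hqm K _ _ hK
      refine ⟨fun h => hcon ⟨q, hq, hqm, K, inferInstance, inferInstance, hK, Or.inl
        (point_iff.mp h)⟩, noSection fun h => hcon ⟨q, hq, hqm, K, inferInstance, inferInstance,
        hK, Or.inr (Or.inl h)⟩, noPro fun h => hcon ⟨q, hq, hqm, K, inferInstance, inferInstance,
        hK, Or.inr (Or.inr h)⟩⟩
    · rw [count_soluble]
  · intro hatt
    obtain ⟨D, hD, hs⟩ := (local_global hn hm hmn hirr).2 hatt
    have h3 := (Pool.Agent.Q51.ZC.main hn hm hmn hirr).2.2 ⟨D, hD, soluble_iff.mp hs⟩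
    obtain ⟨c, X0, hc, h4⟩ := h3
    refine ⟨c, X0, hc, fun X hX => (h4 X hX).trans (le_of_eq ?_)⟩
    rw [count_soluble]

end Pool.Agent.Results.MP_2f3286_ag.FermatTwistsLocalGlobal
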