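import Pool.Agent.U190.NC.Fam

/-!
# The section conjecture for 100% of the members of families of plane curves given by norm forms

Let `K` be a number field. We consider the plane curves of degree `d` over `K` of the form

  `X : N_{E/K}(A₀ x₀ + A₁ x₁ + A₂ x₂) = a Q(x₀, x₁, x₂)ⁿ`,   `A₀, A₁, A₂ ∈ E`,  `a ∈ K`,

where `E = K[T]/(G)` is an étale algebra of degree `d` over `K`, for instance a field, `n | d`, and `Q` is
a form of degree `d/n` over `K` which does not vanish at the points of intersection of the `d` conjugate
lines `λ_θ = 0`, `λ_θ = A₀(θ) x₀ + A₁(θ) x₁ + A₂(θ) x₂`, `θ` a root of `G` (this is part of the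
smoothness of `X`). These lines meet `X` with multiplicities divisible by `n`; for instance for `d = 4` and
`n = 2` the curve `X` is a plane quartic for which they are four conjugate bitangents (and over an
algebraically closed field every smooth plane quartic is of this form, in many ways).

Both the number `a` and the algebra `E` are allowed to vary with a parameter `t ∈ O_K`: let
`h ∈ O_K[t]` and let `G ∈ O_K[t][T]` be monic of degree `d` in `T`. Let `D ≥ 1`, and suppose that `h` has
a simple root `θ ∈ K̄` such that `G(θ, T)` is separable and some element `σ` of `Gal(K̄/K(θ))` permutes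
the roots of `G(θ, T)` in cycles of lengths divisible by `gcd(2, D) D`. (For instance `h = t`, and `G` with
coefficients in `O_K`, a constant algebra: then the condition is that an element of the Galois group of
`E` has this property, for instance that `E/K` is a cyclic extension of a degree divisible by
`gcd(2, D) D`, or a quartic extension with a Galois group of order 4, 8 or 24 which contains a cycle of
length four, and `D = 2`.)

**Theorem.** For all `t ∈ O_K` outside a set of density zero, for ALL finite extensions `L` of `K` with
`D ∤ [L : K]`, ALL multiples `n` of `D` which divide `d`, ALL `A₀, A₁, A₂ ∈ E_t = K[T]/(G(t, T))` and all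
forms `Q` of degree `d/n` as above, the curve

  `N_{E_t/K}(A₀ x₀ + A₁ x₁ + A₂ x₂) = h(t) Q(x₀, x₁, x₂)ⁿ`

has no point over `L`, and the fundamental groups of its open subcurves over `L`, and of all smooth
curves over `L` which dominate it, have no sections over `G_L`. So the section conjecture holds for all
these curves over all these fields `L`, of unbounded degree, simultaneously. The set of the exceptional
`t` has density zero in a strong sense: for every `ε > 0` there is an ideal `I ≠ 0` such that the
exceptional `t` lie in at most `ε #(O_K/I)` residue classes modulo `I`.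

The obstruction at one place for one curve is the theorem of `MP_e66f84_ag.NormCurvesAnyField` of the
starting library (there `E` is a field); the local theorem, the choice of the place of `L` and the
distribution of the places are in the parts `TH377.NC` and `TH120.Sec` of the starting library.

The fundamental group is described through valuations.  Let `U` be a smooth geometrically connected
curve over `k` with function field `F`, let `Ω` be an algebraic closure of `F`, and let `F_U` be the
maximal extension of `F` inside `Ω` which is unramified over the closed points of `U`, that is, over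
their local rings, which are valuation rings of `F`.  Then `π₁(U) = Gal(F_U/F)`, and the map
`π₁(U) → G_k` is the restriction of automorphisms to the algebraic closure of `k` in `Ω`.

Proof.  By Chebotarev there are many primes `v` of `K` with a residue class `t₀` modulo `v` which is a
simple root of `h`, such that the irreducible factors of `G(t₀, T)` modulo `v` are different and have
degrees divisible by `gcd(2, D) D`; so for almost all `t` there is such a `v` for which `h(t)` has the
valuation 1. Let `l` be a prime number with `v_l([L : K]) < v_l(D)`. There is a place `w` of `L` above `v`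
with `v_l(e f) ≤ v_l([L : K])`; put `ℓ = l^(1 + v_l(e))`. The valuation `e` of `h(t)` at `w` is not divisible
by `ℓ`, and the irreducible factors of `G(t, T)` over the residue field of `w` have degrees divisible by
`gcd(2, ℓ) ℓ`. Let `s` be a section over `L`.  For two conjugate linear forms the function
`λ_i/λ_j` on `X` is an `ℓ`-th power up to units at all places, since at each place all of the `λ_i` but at
most one have the same value, and `∏ λ_i = h(t) Qⁿ`.  So `λ_i/λ_j` has an `ℓ`-th root in `F_U`, and by
Kummer theory it is `c_{ij} β^ℓ` with a constant `c_{ij}` in an extension `S` of `L` which is unramified at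
`w`, and with `β` fixed by `s(G_S)`.  The valuations of the `c_{ij}` at an extension of `w` are
well-defined modulo `ℓ`, additive, and invariant under its decomposition group, which is transitive on
the roots of `G(t, T)` that reduce to the roots of an irreducible factor.  So the sum over `i` of the
valuations of the `c_{ij}` is `0` modulo `ℓ`.  But the equation of the curve shows that it is the
valuation of `h(t)` modulo `ℓ`, a contradiction.
-/

set_option autoImplicit false

open Polynomial NumberField

namespace Pool.Agent.Results.MP_2f3286_ag.NormCurves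

universe u v w y

section definitions

variable (k : Type u) (F : Type v) (Ω : Type w) [Field k] [Field F] [Field Ω] [Algebra k F]
  [Algebra F Ω] [Algebra k Ω]

/-- The inertia group of the valuation ring `W` of `Ω`, as a subgroup of `Gal(Ω/F)`: the
automorphisms of `Ω` over `F` that map `W` onto itself and act as the identity on its residue
field. -/
noncomputable def inertia (W : ValuationSubring Ω) : Subgroup (Ω ≃ₐ[F] Ω) :=
  (W.inertiaSubgroup F).map (W.decompositionSubgroup F).subtype

/-- `F_U`, for a set `U` of valuation rings of `F`: the elements of `Ω` fixed by the inertia groups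
of all valuation rings `W` of `Ω` with `W ∩ F ∈ U`.  If `Ω` is an algebraic closure of a field `F`
of characteristic zero, this is the maximal extension of `F` in `Ω` unramified over `U`. -/
noncomputable def unramified (U : Set (ValuationSubring F)) : IntermediateField F Ω :=
  ⨅ W : {W : ValuationSubring Ω // W.comap (algebraMap F Ω) ∈ U},
    IntermediateField.fixedField (inertia F Ω W.1)

/-- The map `τ : M → M` acts as `σ : K → K` on the elements that the fields `K` and `M` have in
common when they are regarded as subfields of `Ω` through `i` and `j`. -/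
def ActsAs {K M Ω : Type*} [Field K] [Field M] [Field Ω] (i : K →+* Ω) (j : M →+* Ω) (σ : K → K)
    (τ : M → M) : Prop :=
  ∀ c z, j z = i c → j (τ z) = i (σ c)

/-- Let `k ⊆ K ⊆ Ω` and `F ⊆ M ⊆ Ω` be fields.  A splitting of `Gal(M/F) → Gal(K/k)`: a continuous
homomorphism `s` from `Gal(K/k)` to `Gal(M/F)` such that `s(σ)` acts as `σ` on the elements of
`K ∩ M`. -/
structure Splitting (K M : Type*) [Field K] [Field M] [Algebra k K] [Algebra F M] [Algebra K Ω]
    [Algebra M Ω] where
  /-- the homomorphism `Gal(K/k) → Gal(M/F)` -/
  toHom : (K ≃ₐ[k] K) →* (M ≃ₐ[F] M)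
  cont : Continuous toHom
  compat : ∀ σ : K ≃ₐ[k] K, ActsAs (algebraMap K Ω) (algebraMap M Ω) σ (toHom σ)

/-- The sections of `π₁(U) = Gal(F_U/F) → G_k`: the continuous homomorphisms `s` from
`G_k = Gal(k̄/k)` to `Gal(F_U/F)`, where `k̄` is the algebraic closure of `k` in `Ω`, such that
`s(σ)` acts as `σ` on the elements of `k̄`. -/
def GaloisSection (U : Set (ValuationSubring F)) : Type w :=
  Splitting k F Ω (algebraicClosure k Ω) (unramified F Ω U)

end definitions

section curve

variable {K : Type u} [Field K]

/-- The equation `N(A₀ x₀ + A₁ x₁ + A₂ x₂) = a Q(x₀, x₁, x₂)ⁿ` at a vector with entries in an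
algebraically closed field `Ω` over `K`, where `A_j ∈ K[T]/(G)` is the class of the polynomial `A j`: the
norm is the product of the `A₀(θ) x₀ + A₁(θ) x₁ + A₂(θ) x₂` over the roots `θ` of `G` in `Ω`. -/
def OnCurve {Ω : Type*} [Field Ω] [Algebra K Ω] (G : K[X]) (A : Fin 3 → K[X]) (a : K)
    (Q : MvPolynomial (Fin 3) K) (n : ℕ) (x : Fin 3 → Ω) : Prop :=
  ((G.map (algebraMap K Ω)).roots.map fun θ => ∑ j, aeval θ (A j) * x j).prod =
    algebraMap K Ω a * MvPolynomial.aeval x Q ^ n

/-- The form `Q` does not vanish at the points of intersection of two conjugate lines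
`A₀(θ) x₀ + A₁(θ) x₁ + A₂(θ) x₂ = 0`, `θ` a root of `G`.  (In particular these lines are different.) -/
def Transversal (G : K[X]) (A : Fin 3 → K[X]) (Q : MvPolynomial (Fin 3) K) : Prop :=
  ∀ θ θ' : AlgebraicClosure K, aeval θ G = 0 → aeval θ' G = 0 → θ ≠ θ' →
    MvPolynomial.aeval (crossProduct (fun j => aeval θ (A j)) (fun j => aeval θ' (A j))) Q ≠ 0

/-- The curve has no point over `L`. -/
def NoPoint (L : Type y) [Field L] [Algebra K L] (G : K[X]) (A : Fin 3 → K[X]) (a : K)
    (Q : MvPolynomial (Fin 3) K) (n : ℕ) : Prop :=
  ∀ x : Fin 3 → L, x ≠ 0 → ¬ OnCurve G A a Q n fun j => algebraMap L (AlgebraicClosure L) (x j)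

/-- Let `F` be any field over `L` that contains a point of the curve, for instance the function field
of the curve over `L`, and let `Ω` be an algebraic closure of `F`.  Then for every set `U` of
valuation rings of `F` over `L` there is no section of `π₁(U) → G_L`.  If `F` is the function field of
the curve, such `U` are given by its normalisation and by all its open subcurves. -/
def NoSection (L : Type y) [Field L] [Algebra K L] (G : K[X]) (A : Fin 3 → K[X]) (a : K)
    (Q : MvPolynomial (Fin 3) K) (n : ℕ) : Prop :=
  ∀ (F : Type v) (Ω : Type w) [Field F] [Field Ω] [Algebra L F] [Algebra F Ω] [Algebra L Ω]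
    [Algebra K Ω] [IsScalarTower L F Ω] [IsScalarTower K L Ω] [IsAlgClosure F Ω] (x : Fin 3 → F)
    (U : Set (ValuationSubring F)), x ≠ 0 → OnCurve G A a Q n (fun j => algebraMap F Ω (x j)) →
      (∀ O ∈ U, ∀ c : L, algebraMap L F c ∈ O) → IsEmpty (GaloisSection L F Ω U)

/-- All the assertions for the algebra `E = K[T]/(G)`, the numbers `D` and `a`: for all finite extensions
`L` of `K` such that `D` does not divide `[L : K]`, all `n | [E : K]` divisible by `D`, all
`A₀, A₁, A₂ ∈ E` and all forms `Q` of degree `[E : K]/n` over `K` that do not vanish at the points of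
intersection of the conjugate lines, the curve `N_{E/K}(A₀ x₀ + A₁ x₁ + A₂ x₂) = a Qⁿ` has no point and
no section over `L`. -/
def NothingOver (D : ℕ) (G : K[X]) (a : K) : Prop :=
  ∀ (L : Type y) [Field L] [Algebra K L] [FiniteDimensional K L],
    ¬ D ∣ Module.finrank K L → ∀ n q : ℕ, D ∣ n → n * q = G.natDegree →
      ∀ (A : Fin 3 → K[X]) (Q : MvPolynomial (Fin 3) K), Q.IsHomogeneous q → Transversal G A Q →
        NoPoint L G A a Q n ∧ NoSection.{u, v, w} L G A a Q n

/-- The value of the polynomials with coefficients in `O_K` at `θ ∈ K̄`. -/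
noncomputable def value (θ : AlgebraicClosure K) : (𝓞 K)[X] →+* AlgebraicClosure K :=
  eval₂RingHom ((algebraMap K (AlgebraicClosure K)).comp (algebraMap (𝓞 K) K)) θ

/-- `h` has a simple root `θ` such that `G(θ, T)` is separable and an automorphism `σ` of `K̄` over
`K(θ)` permutes the roots of `G(θ, T)` in cycles of lengths divisible by `N`. -/
def HasCycles (N : ℕ) (h : (𝓞 K)[X]) (G : (𝓞 K)[X][X]) : Prop :=
  ∃ (θ : AlgebraicClosure K) (σ : AlgebraicClosure K ≃ₐ[K] AlgebraicClosure K),
    value θ h = 0 ∧ value θ (derivative h) ≠ 0 ∧ (G.map (value θ)).Separable ∧ σ θ = θ ∧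
      ∀ ρ, (G.map (value θ)).IsRoot ρ → ∀ m : ℕ, (σ ^ m) ρ = ρ → N ∣ m

/-- The polynomial `G(t, T)` over `K`. -/
noncomputable def specialise (G : (𝓞 K)[X][X]) (t : 𝓞 K) : K[X] :=
  (G.map (evalRingHom t)).map (algebraMap (𝓞 K) K)

/-- The `t ∈ O_K` such that one of the curves for `E_t = K[T]/(G(t, T))` and `a = h(t)` has a point or a
section over a field `L` with `D ∤ [L : K]`. -/
def Exceptional (D : ℕ) (h : (𝓞 K)[X]) (G : (𝓞 K)[X][X]) : Set (𝓞 K) :=
  {t | ¬ NothingOver.{u, v, w, y} D (specialise G t) (algebraMap (𝓞 K) K (h.eval t))}

/-- Density zero: for every `ε > 0` there is an ideal `I ≠ 0` such that `E` lies in at most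
`ε #(O_K/I)` residue classes modulo `I`. -/
def DensityZero (E : Set (𝓞 K)) : Prop :=
  ∀ ε : ℝ, 0 < ε → ∃ I : Ideal (𝓞 K), I ≠ ⊥ ∧
    (Set.ncard ((Ideal.Quotient.mk I) '' E) : ℝ) ≤ ε * Nat.card (𝓞 K ⧸ I)

end curve

section proof

lemma toSec {k : Type u} {F : Type v} {Ω : Type w} [Field k] [Field F] [Field Ω] [Algebra k F]
    [Algebra F Ω] [Algebra k Ω] (U : Set (ValuationSubring F))
    (h : IsEmpty (Pool.Agent.W620.SC.GSection k F Ω U)) : IsEmpty (GaloisSection k F Ω U) :=
  ⟨fun s => h.false ⟨s.toHom, s.cont, s.compat⟩⟩

open Pool.Agent.TH120.Sec in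
lemma spc {K : Type u} [Field K] [NumberField K] {D : ℕ} (hD : 2 ≤ D) (h : (𝓞 K)[X])
    (G : (𝓞 K)[X][X]) (hG : G.Monic) (hc : HasCycles (Nat.gcd 2 D * D) h G) :
    ∃ (θ : AlgebraicClosure K) (σ : AlgebraicClosure K ≃ₐ[K] AlgebraicClosure K),
      Spc (Nat.gcd 2 D * D) h G θ σ := by
  obtain ⟨θ, σ, h1, h2, h3, h4, h5⟩ := hc
  have hN : 2 ≤ Nat.gcd 2 D * D := by
    have : 0 < Nat.gcd 2 D := Nat.gcd_pos_of_pos_left _ two_pos
    nlinarith
  refine ⟨θ, σ, h1, h2, ?_, h3, h4, ?_, ?_⟩
  · rw [hG.leadingCoeff, map_one]
    exact one_ne_zero
  · intro ρ hρ hfix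
    have h6 := h5 ρ hρ 1 (by rw [pow_one]; exact hfix)
    have := Nat.le_of_dvd one_pos h6
    omega
  · intro _ m hm ρ hρ hfix
    refine hm (h5 ρ hρ m ?_)
    rw [AlgEquiv.coe_pow]
    exact hfix

end proof

/-- Let `K` be a number field, `D ≥ 1`, `h ∈ O_K[t]`, and let `G ∈ O_K[t][T]` be monic in `T` of positive
degree. Suppose that `h` has a simple root `θ` such that `G(θ, T)` is separable and an element of
`Gal(K̄/K(θ))` permutes its roots in cycles of lengths divisible by `gcd(2, D) D`. Then for all `t ∈ O_K`
outside a set of density zero, all finite extensions `L` of `K` with `D ∤ [L : K]`, all multiples `n` of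
`D` which divide `d = deg_T G`, all `A₀, A₁, A₂ ∈ E = K[T]/(G(t, T))` and all forms `Q` of degree `d/n` which
do not vanish at the intersections of the conjugate lines, the plane curve
`N_{E/K}(A₀ x₀ + A₁ x₁ + A₂ x₂) = h(t) Qⁿ` has no point over `L`, and the fundamental groups of its
open subcurves over `L` and of all smooth curves over `L` that dominate it have no sections. -/
theorem result (K : Type u) [Field K] [NumberField K] (D : ℕ) (hD : D ≠ 0) (h : (𝓞 K)[X])
    (G : (𝓞 K)[X][X]) (hG : G.Monic) (hd : G.natDegree ≠ 0)
    (hc : HasCycles (Nat.gcd 2 D * D) h G) :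
    DensityZero (Exceptional.{u, v, w, y} D h G) := by
  rcases Nat.lt_or_ge D 2 with hD2 | hD2
  · -- `D = 1`: nothing to prove
    have hD1 : D = 1 := by omega
    subst hD1
    have hempty : (Exceptional.{u, v, w, y} 1 h G : Set (𝓞 K)) = ∅ := by
      ext t
      simp only [Set.mem_empty_iff_false, iff_false]
      intro ht
      apply ht
      intro L _ _ _ hL
      exact absurd (one_dvd _) hL
    intro ε hε
    refine ⟨⊤, top_ne_bot, ?_⟩
    rw [hempty, Set.image_empty, Set.ncard_empty, Nat.cast_zero]
    exact mul_nonneg hε.le (Nat.cast_nonneg _)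
  · obtain ⟨θ, σ, hs⟩ := spc hD2 h G hG hc
    refine Pool.Agent.TH120.Sec.fam_dz _ h G θ σ hs _ ?_
    intro t ht v ⟨hb, hb', hloc⟩
    apply ht
    intro L _ _ _ hL n q hDn hnq A Q hQ htr
    have hNF : NumberField L := NumberField.of_module_finite K L
    have hgm : (G.map (evalRingHom t)).Monic := hG.map _
    have hgd : (G.map (evalRingHom t)).natDegree = G.natDegree := hG.natDegree_map _
    have hN2 : Nat.gcd 2 D * D ≠ 2 := by
      intro h2
      rcases Nat.eq_or_lt_of_le hD2 with h3 | h3
      · rw [← h3] at h2
        norm_num at h2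
      · have : 0 < Nat.gcd 2 D := Nat.gcd_pos_of_pos_left _ two_pos
        nlinarith
    have hnq' : n * q = (G.map (evalRingHom t)).natDegree := by
      rw [hnq, specialise, hgm.natDegree_map]
    obtain ⟨k1, k2⟩ := Pool.Agent.U190.NC.nf_both (K := K) (L := L) v D hD hL
      (G.map (evalRingHom t)) hgm hloc.2.2.1 (hloc.2.2.2.2 hN2) (h.eval t) hb hb' n q hDn hnq'
      (by rw [hgd]; exact hd) A Q hQ htr
    refine ⟨fun x hx hon => k1 x hx hon, ?_⟩
    intro F Ω _ _ _ _ _ _ _ _ _ x U hx hon hU
    exact toSec U (k2 F Ω x U hx hon hU)

end Pool.Agent.Results.MP_2f3286_ag.NormCurves
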