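import Pool.Agent.U36.SD.All

/-!
# Sections given locally by points are integral outside a set of primes of density zero

Let `K` be a number field, `U` a curve over `K` with function field `F`, given by the valuation rings
of its closed points, and `M` the maximal extension of `F` in an algebraic closure which is unramified
over `U`, so that `Gal(M/F) = π₁(U)`, or more generally any algebraic extension of `F` which contains
all roots of its units over `U`, such as the part of the maximal unramified extension which belongs to
the geometrically prosolvable quotient of `π₁(U)`. Let `z ∈ M` be such that `z` and `1 - z` are units over `U`; a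
nonconstant `z` of this kind is a nonconstant map from a finite étale covering of `U`, over a finite
extension of the constants, to the projective line minus `0, 1, ∞`. So such `z` exist for every open
subcurve of the projective line with at least three geometric points removed, for every elliptic curve
minus a nonempty finite set, for Fermat curves and modular curves minus the cusps, and for all affine
curves with a finite étale covering which maps to one of these.

Let `s` be a section of `π₁(U) → Gal(B/K)` which is given over the completion `K_v`, for every finite
place `v` of `K`, by a point `p v` of `U` over `K_v`. No integrality and no birational lifting of `s` is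
assumed. The theorem says that the prime numbers `l` such that for some place `v` of `K` above `l` the
value `z(p v)` is not an integral point of the projective line minus `0, 1, ∞` form a set of natural
density zero.

Stix proved that birationally liftable sections are integral outside a set of places of Dirichlet
density zero, or are cuspidal, by representations on the torsion points of families of elliptic curves.

Proof. Let `L` be a finite Galois extension of `K` such that `z` is fixed by `s(Gal(B/L))`. The section
over `L` has local points at all places `w` of `L`. Let `y = 1 - z`. By Hilbert's theorem 90,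
`y = b_l w_l ^ l` with `b_l ∈ L` and units `w_l`, for every prime `l`. At the places where `z` is near
zero `b_l` is an `l`-th power modulo `w`. If `b_l` is not an `l`-th power in `L` for many `l ≡ 1` modulo
`m`, then these places lie above a set of primes of density zero, by Chebotarev's density theorem, also
at places of residue degree greater than one. Otherwise there are many `n` with `y = u ^ n`, `u` a unit,
and `-z` is the product of the cyclotomic polynomials `Φ_m(u)`, `m ∣ n`, which are all units. If `z` is
near zero at many places, then one `Φ_m(u)` is near zero at many places, and by the same argument the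
other `Φ_m'(u)` are units at almost all places. By the finiteness of the class number and Dirichlet's
unit theorem the values of `u` at all places are roots of one polynomial, so `z` is near zero at
finitely many places only.
-/

set_option autoImplicit false

open IsDedekindDomain NumberField Filter Topology Pool.Agent.TH954

namespace Pool.Agent.Results.MP_2f3286_ag.SelmerSectionsIntegral

/-- `z` is a unit over the curve with the valuation rings `U`: a unit of every valuation ring of `M`
above an element of `U`. -/
def UnitOver {F M : Type} [Field F] [Field M] [Algebra F M] (U : Set (ValuationSubring F)) (z : M) :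
    Prop :=
  ∀ W : ValuationSubring M, W.comap (algebraMap F M) ∈ U → z ∈ W ∧ z⁻¹ ∈ W

/-- `M` contains all roots of its units over the curve with the valuation rings `U` -/
def RootClosed {F : Type} (M : Type) [Field F] [Field M] [Algebra F M]
    (U : Set (ValuationSubring F)) : Prop :=
  ∀ a : M, a ≠ 0 → UnitOver U a → ∀ n : ℕ, 0 < n → ∃ w : M, w ^ n = a

/-- The place `p` is a point of the curve with the valuation rings `U`: its valuation ring is all of
`M` or lies above an element of `U`. -/
def PointOf {K F M : Type} [Field K] [Field F] [Field M] [Algebra F M] [Algebra K M]
    (U : Set (ValuationSubring F)) {C : Type} [Field C] [Algebra K C] (p : Plc K M C) : Prop :=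
  p.W = ⊤ ∨ p.W.comap (algebraMap F M) ∈ U

/-- `ζ` is a unit of the ring of integers of the algebraic closure of the completion at `v` -/
def UnitAt {K : Type} [Field K] [NumberField K] (v : HeightOneSpectrum (𝓞 K))
    (ζ : AlgebraicClosure (v.adicCompletion K)) : Prop :=
  IsIntegral (v.adicCompletionIntegers K) ζ ∧ IsIntegral (v.adicCompletionIntegers K) ζ⁻¹

/-- The function `z` is integral at the place `p`, as a map to the projective line minus `0, 1, ∞`: it
has a value `ζ` at `p`, and `ζ` and `1 - ζ` are units. -/
def IntegralAt {K M : Type} [Field K] [NumberField K] [Field M] [Algebra K M]
    (v : HeightOneSpectrum (𝓞 K)) (p : Plc K M (AlgebraicClosure (v.adicCompletion K))) (z : M) :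
    Prop :=
  ∃ ζ, p.val z ζ ∧ UnitAt v ζ ∧ UnitAt v (1 - ζ)

/-- the set of the prime numbers in `S` has natural density zero -/
def DensityZero (S : Set ℕ) : Prop :=
  Tendsto (fun n : ℕ => ({l : ℕ | l ≤ n ∧ l.Prime ∧ l ∈ S}.ncard : ℝ) /
    (Nat.primeCounting n : ℝ)) atTop (𝓝 0)

/-- **Sections given locally by points are integral outside density zero.** `K` is a number field, `U` a
set of valuation rings over `K` of the extension `F`.

(1) The maximal extension `M` of `F` unramified over `U` contains all roots of its units over `U`.

(2) Let `M` be an algebraic extension of `F` which contains all roots of its units over `U`, `z ∈ M` such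
that `z` and `1 - z` are nonzero and units over `U`, and `s` a section of `Gal(M/F) → Gal(B/K)` which is
given over every completion `K_v` by a point `p v` of `U`. Then `z` is integral at all the `p v`, except
for places above a set of prime numbers of natural density zero. -/
theorem result :
    (∀ (K F Ω M : Type) [Field K] [NumberField K] [Field F] [Field Ω] [Field M]
      [Algebra K F] [Algebra F Ω] [Algebra K Ω] [IsScalarTower K F Ω] [IsAlgClosure F Ω]
      [Algebra F M] [Algebra K M] [IsScalarTower K F M]
      (U : Set (ValuationSubring F)), (∀ O ∈ U, ∀ c : K, algebraMap K F c ∈ O) →
      ∀ e : M →ₐ[F] Ω, Pool.Agent.W620.SC.unramified F Ω U = e.fieldRange → RootClosed M U) ∧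
    ∀ (K F M B : Type) [Field K] [NumberField K] [Field F] [Field M] [Field B]
      [Algebra K F] [Algebra F M] [Algebra K M] [IsScalarTower K F M] [Algebra.IsAlgebraic F M]
      [Algebra K B] [IsAlgClosure K B]
      (U : Set (ValuationSubring F)), (∀ O ∈ U, ∀ c : K, algebraMap K F c ∈ O) → RootClosed M U →
      ∀ z : M, z ≠ 0 → z ≠ 1 → UnitOver U z → UnitOver U (1 - z) →
      ∀ (s : GalSection K F M B)
        (p : ∀ v : HeightOneSpectrum (𝓞 K), Plc K M (AlgebraicClosure (v.adicCompletion K))),
        (∀ v, s.GivenBy (v.adicCompletion K) (p v)) → (∀ v, PointOf U (p v)) →
        DensityZero {l | ∃ v : HeightOneSpectrum (𝓞 K), (l : 𝓞 K) ∈ v.asIdeal ∧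
          ¬ IntegralAt v (p v) z} := by
  refine ⟨fun K F Ω M _ _ _ _ _ _ _ _ _ _ _ _ _ U hU e he a ha haU n hn => ?_,
    fun K F M B _ _ _ _ _ _ _ _ _ _ _ _ U hU hR z hz0 hz1 hz hz' s p hp hpU => ?_⟩
  · have hΩ1 : IsAlgClosed Ω := IsAlgClosure.isAlgClosed F
    have hΩ2 : Algebra.IsAlgebraic F Ω := IsAlgClosure.isAlgebraic
    exact Pool.Agent.U36.SC.root_unram U hU e he a ha haU n hn
  · have key := Pool.Agent.U36.SD.primes_of (Pool.Agent.U36.SD.main_all hU hR s p hp
      hpU hz0 (sub_ne_zero.2 (Ne.symm hz1)) hz hz')
    refine key.congr fun n => ?_
    congr 3
    ext l
    constructor
    · rintro ⟨h1, h2, v, hv, hlv⟩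
      exact ⟨h1, h2, v, hlv, hv⟩
    · rintro ⟨h1, h2, v, hlv, hv⟩
      exact ⟨h1, h2, v, hv, hlv⟩

end Pool.Agent.Results.MP_2f3286_ag.SelmerSectionsIntegral
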